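import Pool.Agent.H.MP_bda3cd_nt.A

namespace Pool.Agent.Results.MP_bda3cd_nt.NoExt

def K (n : ℕ) : Set ℕ := {m | 0 < m ∧ ∀ p : ℕ, p.Prime → p ∣ m → p ≤ n}

def Khat (n : ℕ) : Set ℚ := {q | ∃ a ∈ K n, ∃ b ∈ K n, q = (a : ℚ) / b}

def SatK (n : ℕ) (c : ℕ → ℕ) : Prop :=
  (∀ x ∈ K n, 1 ≤ c x ∧ c x ≤ n) ∧ (∀ i, 1 ≤ i → i ≤ n → c i = i) ∧
    ∀ x ∈ K n, ∀ i j : ℕ, 1 ≤ i → i < j → j ≤ n → c (i * x) ≠ c (j * x)

def SatKhat (n : ℕ) (c : ℚ → ℕ) : Prop :=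
  (∀ x ∈ Khat n, 1 ≤ c x ∧ c x ≤ n) ∧ (∀ i : ℕ, 1 ≤ i → i ≤ n → c i = i) ∧
    ∀ x ∈ Khat n, ∀ i j : ℕ, 1 ≤ i → i < j → j ≤ n → c (i * x) ≠ c (j * x)

open Pool.Agent.H.MP_bda3cd_nt in
theorem result : ∃ c : ℕ → ℕ, SatK 8 c ∧
    ¬ ∃ c' : ℚ → ℕ, SatKhat 8 c' ∧ ∀ x ∈ K 8, c' x = c x := by
  refine ⟨col, ⟨fun x _ => col_range x, col_small,
    fun x hx i j h1 h2 h3 => col_ne x i j hx.1.ne' h1 h2 h3⟩, ?_⟩
  rintro ⟨c, ⟨hr, -, hne⟩, hext⟩
  have hK : ∀ m : ℕ, 0 < m → m ∣ 840 → m ∈ K 8 := by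
    intro m hm hd
    refine ⟨hm, fun p hp hpm => ?_⟩
    have h : p ∣ 8 * (3 * (5 * 7)) := hpm.trans hd
    rcases (Nat.Prime.dvd_mul hp).mp h with h | h
    · exact Nat.le_of_dvd (by norm_num) h
    rcases (Nat.Prime.dvd_mul hp).mp h with h | h
    · exact (Nat.le_of_dvd (by norm_num) h).trans (by norm_num)
    rcases (Nat.Prime.dvd_mul hp).mp h with h | h
    · exact (Nat.le_of_dvd (by norm_num) h).trans (by norm_num)
    · exact (Nat.le_of_dvd (by norm_num) h).trans (by norm_num)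
  have hH : ∀ m : ℕ, 0 < m → m ∣ 840 → (m : ℚ) / (2 : ℕ) ∈ Khat 8 := fun m hm hd =>
    ⟨m, hK m hm hd, 2, hK 2 (by norm_num) (by norm_num), rfl⟩
  obtain ⟨v1, v2, v3, v4, v5, v6⟩ := col_vals
  have v7 := col_small 7 (by norm_num) (by norm_num)
  have v8 := col_small 5 (by norm_num) (by norm_num)
  have e1 := hext 35 (hK _ (by norm_num) (by norm_num))
  have e2 := hext 70 (hK _ (by norm_num) (by norm_num))
  have e3 := hext 105 (hK _ (by norm_num) (by norm_num))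
  have e4 := hext 140 (hK _ (by norm_num) (by norm_num))
  have e5 := hext 14 (hK _ (by norm_num) (by norm_num))
  have e6 := hext 28 (hK _ (by norm_num) (by norm_num))
  have e7 := hext 7 (hK _ (by norm_num) (by norm_num))
  have e8 := hext 5 (hK _ (by norm_num) (by norm_num))
  have a := hH 35 (by norm_num) (by norm_num)
  have b := hH 7 (by norm_num) (by norm_num)
  have d := hH 5 (by norm_num) (by norm_num)
  have r := hr _ a
  have n1 := hne _ a 1 2 (by norm_num) (by norm_num) (by norm_num)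
  have n2 := hne _ a 1 4 (by norm_num) (by norm_num) (by norm_num)
  have n3 := hne _ a 1 6 (by norm_num) (by norm_num) (by norm_num)
  have n4 := hne _ a 1 8 (by norm_num) (by norm_num) (by norm_num)
  have n5 := hne _ b 4 5 (by norm_num) (by norm_num) (by norm_num)
  have n6 := hne _ b 5 8 (by norm_num) (by norm_num) (by norm_num)
  have n7 := hne _ b 2 5 (by norm_num) (by norm_num) (by norm_num)
  have n8 := hne _ d 2 7 (by norm_num) (by norm_num) (by norm_num)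
  norm_num at r n1 n2 n3 n4 n5 n6 n7 n8 e1 e2 e3 e4 e5 e6 e7 e8
  omega

end Pool.Agent.Results.MP_bda3cd_nt.NoExt
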